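import Pool.Agent.Lib.E2.Final

namespace Pool.Agent.Results.MP_0d40bd_nt.MeanSquare

open Filter

/-- The mean square of the error term of the fourth moment of zeta is
`Omega (T^2 (log log log T)^6)`. -/
theorem result : ∃ (P : Polynomial ℝ) (E : ℝ → ℝ), P.natDegree ≤ 4 ∧
    (∀ T : ℝ, ∫ t in (0 : ℝ)..T, ‖riemannZeta (1 / 2 + t * Complex.I)‖ ^ 4 =
      T * P.eval (Real.log T) + E T) ∧
    Tendsto (fun T => E T / T) atTop (nhds 0) ∧
    ∃ c : ℝ, 0 < c ∧ ∃ᶠ T in atTop,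
      c * T ^ 2 * Real.log (Real.log (Real.log T)) ^ 6 ≤ ∫ t in (0 : ℝ)..T, E t ^ 2 := by
  obtain ⟨P, h4, hP⟩ := Pool.Agent.Lib.E2.exi
  exact ⟨P, Pool.Agent.Lib.E2.err P, h4, fun T => (add_sub_cancel _ _).symm, hP,
    Pool.Agent.Lib.E2.cor_square Pool.Agent.Lib.E2.core Pool.Agent.Lib.E2.all_dy P hP⟩

end Pool.Agent.Results.MP_0d40bd_nt.MeanSquare
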